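import Pool.Agent.GK.E.Gen
import Pool.Agent.GJ.E.Van

/-!
# GK/E-E2: x even everywhere (paper E2)

PLAN.  `lemS` (TS/S/Lem) in the group `H` with the class `{J | N.subgroupOf H ≤ J}` (`ovr_cls`; `N.subgroupOf H` is normal, of finite index), `𝒰` = the set of the
`Subgroup.zpowers t`; `mc_split` with `C' = ∅` (`RC ∅ = ⊥`, so `b = 0`): `x = a + b + v`; `add_mul`, `map_add`; `gen_M2` for `a`; `van_ZT` and `mem_ZT` for `v`
(`over_RC`).
-/

namespace Pool.Agent.GK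

open Pool.Agent.GJ MulAction Pool.Agent.H73.DU Pool.Agent.H73.AL Pool.Agent.LD Pool.Agent.TS

theorem e2 {V T : Finset ℕ} (hTp : ∀ p ∈ T, p.Prime) (h2 : 2 ∈ T) {i n B : ℕ}
    (hV : ∃ P : Pl, Pin V T P) {H : Subgroup GQ} [Finite (GQ ⧸ H)] (hH : Ci V T i H)
    {χ : GQ → ℤˣ} (hχ : GT V T i H χ) (N : Subgroup GQ) [N.Normal] (hN : IsOpen (N : Set GQ))
    (hNH : N ≤ H) (x : Subgroup H → ℤ) (hx : x ∈ RC {J : Subgroup H | N.subgroupOf H ≤ J})
    (he : ∀ t : H, (2 : ℤ) ∣ x (Subgroup.zpowers t)) (hn : n ∣ 2 * H.index)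
    (hB : 4 * N.index ≤ B) : iH H (x * tw H χ) ∈ EY V T (i + 1) n B := by
  haveI hNf : Finite (GQ ⧸ N) := fin_open hN
  haveI hNi : N.FiniteIndex := ⟨Subgroup.index_ne_zero_of_finite⟩
  haveI hSn : (N.subgroupOf H).Normal := inferInstance
  haveI hSf : (N.subgroupOf H).FiniteIndex := inferInstance
  have hC : Cls {J : Subgroup H | N.subgroupOf H ≤ J} := ovr_cls (N.subgroupOf H)
  have h1 : x ∈ MC {J : Subgroup H | N.subgroupOf H ≤ J}
      (Set.range fun t : H => Subgroup.zpowers t) := by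
    refine lemS hC _ hx ?_
    rintro _ ⟨t, rfl⟩
    exact he t
  obtain ⟨a, ha, b, hb, v, hv, hv0, hxs⟩ := mc_split (Set.empty_subset _)
    (AddSubgroup.mem_sup_left h1 : x ∈ MC {J : Subgroup H | N.subgroupOf H ≤ J}
      (Set.range fun t : H => Subgroup.zpowers t) ⊔ RC ∅) hx
  have hb0 : b = 0 := by
    have h2 : RC (∅ : Set (Subgroup H)) ≤ ⊥ := by
      refine (AddSubgroup.closure_le _).2 ?_
      rintro f ⟨J, hJ, -⟩
      exact absurd hJ (Set.notMem_empty J)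
    exact AddSubgroup.mem_bot.1 (h2 hb)
  rw [hxs, hb0, add_zero, add_mul, map_add]
  refine add_mem (gen_M2 hTp h2 hV hH hχ hN hNH hn hB ha) (mem_ZT ?_)
  exact van_ZT hχ.ttr (over_RC hN hNH hv) fun t => hv0 _ ⟨t, rfl⟩

end Pool.Agent.GK
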