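import Pool.Agent.GK.D.Mem
import Pool.Agent.GJ.R.Ind
import Pool.Agent.GJ.E.Spl
import Pool.Agent.GJ.E.Ovr

/-!
# GK/E-Gen: `a . χ` for `a` in `M2`

The generators of `M2` are `2 • pc J`, which gives `2 • pq J χ`, and `pc J` for `J` of index `2` in another subgroup.
-/

namespace Pool.Agent.GK

open Pool.Agent.GJ MulAction Pool.Agent.H73.DU Pool.Agent.H73.AL Pool.Agent.LD Pool.Agent.TS

theorem gen_M2 {V T : Finset ℕ} (hTp : ∀ p ∈ T, p.Prime) (h2 : 2 ∈ T) {i n B : ℕ}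
    (hV : ∃ P : Pl, Pin V T P) {H : Subgroup GQ} [Finite (GQ ⧸ H)] (hH : Ci V T i H)
    {χ : GQ → ℤˣ} (hχ : GT V T i H χ) {N : Subgroup GQ} (hN : IsOpen (N : Set GQ)) (hNH : N ≤ H)
    (hn : n ∣ 2 * H.index) (hB : 4 * N.index ≤ B) {a : Subgroup H → ℤ}
    (ha : a ∈ M2 {J : Subgroup H | N.subgroupOf H ≤ J}) : iH H (a * tw H χ) ∈ EY V T (i + 1) n B := by
  have hJB : ∀ J : Subgroup H, N.subgroupOf H ≤ J → 4 * (J.map H.subtype).index ≤ B :=
    fun J hJ => (Nat.mul_le_mul_left 4 (over_open hN hNH hJ).2.2).trans hB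
  induction ha using AddSubgroup.closure_induction with
  | mem f hf =>
    rcases hf with ⟨J, hJ, rfl⟩ | ⟨J, hJ, ⟨Y, hJY, hi⟩, rfl⟩
    · have := ovr_fin hN hNH hJ
      rw [smul_mul_assoc, map_zsmul, iH_tw H J hχ.chr.1]
      exact pq_two hTp h2 hV hH hχ (Subgroup.map_subtype_le J) (over_open hN hNH hJ).1 hn
        (hJB J hJ)
    · have := ovr_fin hN hNH hJ
      rw [iH_tw H J hχ.chr.1]
      refine pq_quad hTp h2 hV hH hχ (J' := Y.map H.subtype) (Subgroup.map_subtype_le Y)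
        (Subgroup.map_mono hJY) ?_ (over_open hN hNH hJ).1 hn (hJB J hJ)
      rw [Subgroup.relIndex_map_map_of_injective _ _ H.subtype_injective]
      exact hi
  | zero =>
    rw [zero_mul, map_zero]
    exact AddSubgroup.zero_mem _
  | add x y _ _ hx hy =>
    rw [add_mul, map_add]
    exact AddSubgroup.add_mem _ hx hy
  | neg x _ hx =>
    rw [neg_mul, map_neg]
    exact AddSubgroup.neg_mem _ hx

/-- the combinations of subgroups over `N` are combinations of open subgroups -/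
theorem over_RC {H N : Subgroup GQ} (hN : IsOpen (N : Set GQ)) (hNH : N ≤ H) {x : Subgroup H → ℤ}
    (hx : x ∈ RC {J : Subgroup H | N.subgroupOf H ≤ J}) :
    x ∈ RC {J : Subgroup H | IsOpen ((J.map H.subtype : Subgroup GQ) : Set GQ)} := by
  refine AddSubgroup.closure_mono ?_ hx
  rintro f ⟨J, hJ, rfl⟩
  exact ⟨J, (over_open hN hNH hJ).1, rfl⟩

end Pool.Agent.GK
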